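import Pool.Agent.Lib.MP_0287c7_lc.Cubic

set_option autoImplicit false
open Classical

namespace Pool.Agent.Results.MP_0287c7_lc.Cubic

open Pool.Agent.Lib.MP_0287c7_lc in
/-- Every bent exponent of binary weight three is cyclotomically equivalent to an exponent of the
family MF-1 or of the family MF-2. -/
theorem result :
    ∀ n : ℕ, Even n → 2 ≤ n →
      ∀ (F : Type) [Field F] [Fintype F], Fintype.card F = 2 ^ n →
      ∀ d : ℕ, 1 ≤ d → d ≤ 2 ^ n - 2 → (Nat.digits 2 d).sum = 3 →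
      (∃ a : F, a ≠ 0 ∧ ∀ u : F,
        |∑ c : F,
          (if ∑ i ∈ Finset.range n, (a * c ^ d) ^ (2 ^ i) = 0 then (1 : ℤ) else -1) *
          (if ∑ i ∈ Finset.range n, (u * c) ^ (2 ^ i) = 0 then (1 : ℤ) else -1)|
          = 2 ^ (n / 2)) →
      ∃ e : ℕ,
        ((∃ k : ℕ, n = 4 * k ∧ Odd k ∧ e = (2 ^ k + 1) ^ 2) ∨
         (∃ k : ℕ, n = 6 * k ∧ e = 2 ^ (2 * k) + 2 ^ k + 1)) ∧
        ∃ j : ℕ, e ≡ 2 ^ j * d [MOD 2 ^ n - 1] := by
  rintro n hn h2 F _ _ hF d hd hd' hw ⟨a, ha, hb⟩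
  have : Fact (Nat.Prime 2) := ⟨Nat.prime_two⟩
  have : CharP F 2 := charP_of_card_eq_prime_pow hF
  have hb' : Bent n d a := hb
  exact resN_cubic hn (by omega) hw F hF a ha hb'

end Pool.Agent.Results.MP_0287c7_lc.Cubic
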