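import Pool.Agent.Lib.MP_0287c7_lc.QR5

set_option autoImplicit false
open Classical

namespace Pool.Agent.Results.MP_0287c7_lc.GoldQuotient

open Pool.Agent.Lib.MP_0287c7_lc in
/-- A bent exponent `d` with `2^j * d * (2^k + 1) ≡ 2^l + 1` modulo `2^n - 1` is cyclotomically
equivalent to the Gold exponent `2^l + 1` or to the Kasami exponent `2^(2k) - 2^k + 1`. -/
theorem result :
    ∀ n : ℕ, Even n → 2 ≤ n →
      ∀ (F : Type) [Field F] [Fintype F], Fintype.card F = 2 ^ n →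
      ∀ d j k l : ℕ, 1 ≤ d → 2 ^ j * d * (2 ^ k + 1) ≡ 2 ^ l + 1 [MOD 2 ^ n - 1] →
      (∃ a : F, a ≠ 0 ∧ ∀ u : F,
        |∑ c : F,
          (if ∑ i ∈ Finset.range n, (a * c ^ d) ^ (2 ^ i) = 0 then (1 : ℤ) else -1) *
          (if ∑ i ∈ Finset.range n, (u * c) ^ (2 ^ i) = 0 then (1 : ℤ) else -1)|
          = 2 ^ (n / 2)) →
      ∃ e : ℕ,
        ((1 ≤ l ∧ Even (n / Nat.gcd n l) ∧ e = 2 ^ l + 1) ∨
         (1 ≤ k ∧ Nat.gcd k n = 1 ∧ e = 2 ^ (2 * k) - 2 ^ k + 1)) ∧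
        ∃ i : ℕ, e ≡ 2 ^ i * d [MOD 2 ^ n - 1] := by
  rintro n he hn F _ _ hF d j k l hd H ⟨a, ha, hb⟩
  have : NeZero n := ⟨by omega⟩
  have : Fact (Nat.Prime 2) := ⟨Nat.prime_two⟩
  have : CharP F 2 := charP_of_card_eq_prime_pow hF
  have hb' : Bent n d a := hb
  have hp : 0 < 2 ^ j * d := by positivity
  simp only [← ZMod.natCast_eq_natCast_iff] at H ⊢
  have h := ratio hF he (pow_ne_zero _ ha) hp (hb'.equiv hF hd hp .rfl) (k := k) (l := l) (by
    rw [pow_val_cast two_n, pow_val_cast two_n]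
    push_cast at H ⊢
    linear_combination H)
  rw [pow_val_cast two_n, pow_val_cast two_n] at h
  rcases h with ⟨h1, h2⟩ | ⟨h1, i, h2⟩
  · refine ⟨_, .inl ⟨Nat.pos_of_ne_zero fun h => h1 1 odd_one (by simp [h]), ?_, rfl⟩, j + 1, ?_⟩
    · refine Nat.not_odd_iff_even.1 fun h => h1 _ h ?_
      rw [← Nat.cast_mul, ZMod.natCast_eq_zero_iff, Nat.div_mul_right_comm (Nat.gcd_dvd_left n l),
        Nat.mul_div_assoc _ (Nat.gcd_dvd_right n l)]
      exact dvd_mul_right _ _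
    · push_cast at h2 ⊢
      linear_combination h2
  · rw [ZMod.val_natCast, ← Nat.gcd_rec, Nat.gcd_comm] at h1
    refine ⟨_, .inr ⟨Nat.pos_of_ne_zero fun h => ?_, h1, rfl⟩, i + j, ?_⟩
    · rw [h, Nat.gcd_zero_left] at h1
      omega
    · rw [Nat.cast_add, Nat.cast_sub (Nat.pow_le_pow_right two_pos (by omega))]
      push_cast at h2 ⊢
      linear_combination h2

end Pool.Agent.Results.MP_0287c7_lc.GoldQuotient
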