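import Pool.Agent.Lib.MP_0287c7_lc.U.Main

set_option autoImplicit false
open Classical

namespace Pool.Agent.Results.MP_0287c7_lc.SparseRelation

open Pool.Agent.Lib.MP_0287c7_lc in
/-- A bent exponent `d` is cyclotomically equivalent to an exponent of one of the five families
exactly when `r * d ≡ s` modulo `2^n - 1` for some `r`, `s` of small binary weight. -/
theorem result :
    ∀ n : ℕ, Even n → 2 ≤ n →
      ∀ (F : Type) [Field F] [Fintype F], Fintype.card F = 2 ^ n →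
      ∀ d : ℕ, 1 ≤ d → d ≤ 2 ^ n - 2 →
      (∃ a : F, a ≠ 0 ∧ ∀ u : F,
        |∑ c : F,
          (if ∑ i ∈ Finset.range n, (a * c ^ d) ^ (2 ^ i) = 0 then (1 : ℤ) else -1) *
          (if ∑ i ∈ Finset.range n, (u * c) ^ (2 ^ i) = 0 then (1 : ℤ) else -1)|
          = 2 ^ (n / 2)) →
      ((∃ e : ℕ,
        ((∃ i : ℕ, 1 ≤ i ∧ Even (n / Nat.gcd n i) ∧ e = 2 ^ i + 1) ∨
         (∃ r : ℕ, Nat.gcd r (2 ^ (n / 2) + 1) = 1 ∧ e = r * (2 ^ (n / 2) - 1)) ∨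
         (∃ k : ℕ, 1 ≤ k ∧ Nat.gcd k n = 1 ∧ e = 2 ^ (2 * k) - 2 ^ k + 1) ∨
         (∃ k : ℕ, n = 4 * k ∧ Odd k ∧ e = (2 ^ k + 1) ^ 2) ∨
         (∃ k : ℕ, n = 6 * k ∧ e = 2 ^ (2 * k) + 2 ^ k + 1)) ∧
        ∃ j : ℕ, e ≡ 2 ^ j * d [MOD 2 ^ n - 1]) ↔
      ∃ r s : ℕ, 0 < r ∧ r < 2 ^ n - 1 ∧ r * d ≡ s [MOD 2 ^ n - 1] ∧
        (Nat.digits 2 r).sum + max 1 (Nat.digits 2 s).sum ≤ 4) := by
  rintro n he hn F _ _ hF d hd hd' ⟨a, ha, hb⟩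
  have : Fact (Nat.Prime 2) := ⟨Nat.prime_two⟩
  have : CharP F 2 := charP_of_card_eq_prime_pow hF
  have hb' : Bent n d a := hb
  exact U.main he hn hF hd hd' ha hb'

end Pool.Agent.Results.MP_0287c7_lc.SparseRelation
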